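import Pool.Agent.Work.MP_db9399_oo.Interface
import Pool.Agent.Work.MP_db9399_lab_helper61.Multi

/-!
# MP_db9399, block RND (helper75): independent labels with linear tests, from `labM` of helper61
-/

set_option autoImplicit false

namespace Pool.Agent.Work.MP_db9399_oo.helper75

open Finset Classical
open Pool.Agent.Work.MP_db9399_oo

universe u

theorem stmt_RND : Stmt_RND.{u} := by
  intro A g hA hg
  have hg1 : (1 : ℝ) ≤ g := by exact_mod_cast hg
  have hlog : Filter.Tendsto (fun d : ℕ => Real.log (d : ℝ)) Filter.atTop Filter.atTop :=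
    Real.tendsto_log_atTop.comp tendsto_natCast_atTop_atTop
  obtain ⟨d0, hd0⟩ := Filter.eventually_atTop.1
    (((hlog.eventually_ge_atTop (512 * (g : ℝ) ^ 3 * (2 * A + 1))).and
      (hlog.eventually_ge_atTop (4 * (g : ℝ)))).and
      (tendsto_natCast_atTop_atTop.eventually_ge_atTop (320 * (g : ℝ) ^ 2)))
  refine ⟨d0, ?_⟩
  intro V κ _ _ p a d hd hp hp1 hSp hMu
  obtain ⟨⟨h1, h2⟩, h3⟩ := hd0 d hd
  have hdpos : (0 : ℝ) < d := lt_of_lt_of_le (by positivity) h3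
  have hd1 : (1 : ℝ) ≤ d := by nlinarith
  set ℓ : ℝ := Real.log (d : ℝ) with hℓ
  have hℓ0 : 0 < ℓ := lt_of_lt_of_le (by positivity) h2
  set Λ : ℝ := (2 * A + 1) * ℓ with hΛ
  have hΛ0 : 0 ≤ Λ := by positivity
  set p' : V → ℕ → ℝ := fun v j => if h : j < g then p v ⟨j, h⟩ else 0 with hp'
  have hp'0 : ∀ v j, 0 ≤ p' v j := by
    intro v j
    simp only [hp']
    split_ifs with h
    · exact hp v _
    · exact le_rfl
  have hp'1 : ∀ v, ∑ j ∈ range g, p' v j = 1 := by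
    intro v
    rw [Finset.sum_range, ← hp1 v]
    refine sum_congr rfl fun j _ => ?_
    simp only [hp']
    rw [dif_pos j.2]
  have hexp : Real.exp (-Λ) * ((d : ℝ) ^ A * (d : ℝ) ^ A) * d = 1 := by
    rw [hΛ, show -((2 * A + 1) * ℓ) = ℓ * (-(2 * A + 1)) by ring, hℓ,
      ← Real.rpow_def_of_pos hdpos]
    nth_rewrite 4 [← Real.rpow_one (d : ℝ)]
    rw [← Real.rpow_add hdpos, ← Real.rpow_add hdpos, ← Real.rpow_add hdpos]
    rw [show -(2 * A + 1) + (A + A) + 1 = 0 by ring, Real.rpow_zero]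
  have hdA : (1 : ℝ) ≤ (d : ℝ) ^ A := Real.one_le_rpow hd1 hA.le
  have hL : 32 * Real.exp (-Λ) * ((d : ℝ) ^ A + 1) *
      (4 * ((1 : ℕ) * g) * (g * (d : ℝ) ^ A) + 1) ≤ 1 := by
    push_cast
    have he := Real.exp_pos (-Λ)
    have e1 : (d : ℝ) ^ A + 1 ≤ 2 * (d : ℝ) ^ A := by linarith
    have e2 : 4 * (1 * (g : ℝ)) * (g * (d : ℝ) ^ A) + 1 ≤ 5 * (g : ℝ) ^ 2 * (d : ℝ) ^ A := by
      have : 1 ≤ (g : ℝ) ^ 2 * (d : ℝ) ^ A := one_le_mul_of_one_le_of_one_le (by nlinarith) hdA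
      nlinarith
    calc 32 * Real.exp (-Λ) * ((d : ℝ) ^ A + 1) * (4 * (1 * (g : ℝ)) * (g * (d : ℝ) ^ A) + 1)
        ≤ 32 * Real.exp (-Λ) * (2 * (d : ℝ) ^ A) * (5 * (g : ℝ) ^ 2 * (d : ℝ) ^ A) := by
          refine mul_le_mul (mul_le_mul_of_nonneg_left e1 (by positivity)) e2 (by positivity)
            (by positivity)
      _ = 320 * (g : ℝ) ^ 2 * (Real.exp (-Λ) * ((d : ℝ) ^ A * (d : ℝ) ^ A)) := by ring
      _ ≤ d * (Real.exp (-Λ) * ((d : ℝ) ^ A * (d : ℝ) ^ A)) :=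
          mul_le_mul_of_nonneg_right h3 (by positivity)
      _ = 1 := by rw [← hexp]; ring
  obtain ⟨L, l1, l2, -, l4⟩ := MP_db9399_lab.helper61.labM (m := 1) (g := g) one_pos (fun v : V => v)
    (fun _ _ => 0) (fun _ _ => 0) (fun _ _ => le_rfl) (fun _ _ => by simp) p' hp'0 hp'1 a
    ((d : ℝ) ^ A) ((d : ℝ) ^ A) Λ (by positivity) (by positivity) hSp hMu hΛ0 hL 1 (by
      intro i
      have : (univ.filter fun v : V => v = i) = {i} := by
        ext v
        simp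
      rw [this, card_singleton]
      norm_num)
  have key : (g : ℝ) * (2 * (Real.sqrt (32 * g * Λ) + 1)) ≤ ℓ := by
    have e1 : Real.sqrt (32 * g * Λ) ≤ ℓ / (4 * g) := by
      rw [Real.sqrt_le_left (by positivity), div_pow, le_div_iff₀ (by positivity)]
      rw [hΛ]
      have : 512 * (g : ℝ) ^ 3 * (2 * A + 1) * ℓ ≤ ℓ * ℓ := mul_le_mul_of_nonneg_right h1 hℓ0.le
      nlinarith
    have e2 : (g : ℝ) * (2 * (ℓ / (4 * g) + 1)) = ℓ / 2 + 2 * g := by
      have : (g : ℝ) ≠ 0 := by positivity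
      field_simp
      ring
    calc (g : ℝ) * (2 * (Real.sqrt (32 * g * Λ) + 1)) ≤ g * (2 * (ℓ / (4 * g) + 1)) := by
          have hg0 : (0 : ℝ) ≤ g := by positivity
          refine mul_le_mul_of_nonneg_left ?_ hg0
          linarith
      _ = ℓ / 2 + 2 * g := e2
      _ ≤ ℓ := by linarith
  refine ⟨fun v => ⟨L v, l1 v⟩, fun v => ?_, fun q j => ?_⟩
  · have h4 := l2 v
    simp only [hp'] at h4
    rw [dif_pos (l1 v)] at h4
    exact h4
  · have h4 := l4 q j.1 j.2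
    have e : ∑ v, a q v * ((if L v = j.1 then 1 else 0) - p' v j.1) =
        ∑ v, a q v * ((if (⟨L v, l1 v⟩ : Fin g) = j then 1 else 0) - p v j) := by
      refine sum_congr rfl fun v _ => ?_
      simp only [hp']
      rw [dif_pos j.2]
      congr 2
      by_cases h : L v = j.1
      · rw [if_pos h, if_pos (Fin.ext h)]
      · rw [if_neg h, if_neg fun h' => h (congrArg Fin.val h')]
    rw [e] at h4
    refine h4.trans ?_
    have h5 : (g : ℝ) * (((1 : ℕ) + 1) * (Real.sqrt (32 * ((1 : ℕ) * g) * Λ) + 1) *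
        Real.sqrt (∑ v, a q v ^ 2)) =
        (g : ℝ) * (2 * (Real.sqrt (32 * g * Λ) + 1)) * Real.sqrt (∑ v, a q v ^ 2) := by
      push_cast
      rw [one_mul]
      ring
    rw [h5]
    exact mul_le_mul_of_nonneg_right key (Real.sqrt_nonneg _)

end Pool.Agent.Work.MP_db9399_oo.helper75
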